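import Pool.Agent.Helper11.SG.Goals2

/-!
# Project SG (MP_a41896_nt), packet DEG1: curves of degree zero in the second variable
-/

set_option autoImplicit false

open MvPolynomial

namespace Pool.Agent.Helper40.SG2

open WeierstrassCurve Height Height.AdmissibleAbsValues
open Pool.Agent.Helper29.BL Pool.Agent.Helper92.Ru Pool.Agent.Helper42.SG
open Pool.Agent.Helper66.SG (sp3 sp4 pt)
open Pool.Agent.Helper11.SG

/-- A polynomial of degree zero in the second variable is a polynomial in the first one. -/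
theorem one_var {K : Type} [Field K] (f : MvPolynomial (Fin 2) K) (h : f.degreeOf 1 = 0) :
    ∃ g : Polynomial K, f = Polynomial.aeval (X 0 : MvPolynomial (Fin 2) K) g := by
  refine ⟨∑ m ∈ f.support, Polynomial.C (coeff m f) * Polynomial.X ^ m 0, ?_⟩
  conv_lhs => rw [as_sum f]
  rw [map_sum]
  refine Finset.sum_congr rfl fun m hm => ?_
  have h1 : m 1 = 0 := by
    have := monomial_le_degreeOf 1 hm
    omega
  rw [monomial_eq, Finsupp.prod_fintype _ _ (fun i => pow_zero _), Fin.prod_univ_two, h1, pow_zero,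
    mul_one, map_mul, map_pow, Polynomial.aeval_C, Polynomial.aeval_X]
  rfl

theorem eval_X0_sub {K : Type} [Field K] (ξ η : K) :
    eval (pt ξ η) (X 0 - C ξ : MvPolynomial (Fin 2) K) = 0 := by
  rw [map_sub, eval_X, eval_C]
  unfold pt
  rw [if_pos rfl, sub_self]

theorem linear {K : Type} [Field K] (f : MvPolynomial (Fin 2) K) (ξ η : K) (hf : Irreducible f)
    (h : f.degreeOf 1 = 0) (h0 : eval (pt ξ η) f = 0) :
    ∃ c : K, c ≠ 0 ∧ f = C c * (X 0 - C ξ) := by
  obtain ⟨g, hg⟩ := one_var f h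
  have h1 : g.eval ξ = 0 := by
    rw [hg] at h0
    rw [← h0, Polynomial.aeval_def, Polynomial.hom_eval₂, eval_X]
    have h2 : ((eval (pt ξ η)).comp (algebraMap K (MvPolynomial (Fin 2) K))) = RingHom.id K := by
      ext x
      simp
    rw [h2]
    unfold pt
    rw [if_pos rfl, Polynomial.eval₂_id]
  obtain ⟨q, hq⟩ := Polynomial.dvd_iff_isRoot.2 h1
  rw [hq, map_mul, map_sub, Polynomial.aeval_X, Polynomial.aeval_C] at hg
  change f = (X 0 - C ξ) * _ at hg
  rcases hf.isUnit_or_isUnit hg with h2 | h2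
  · exfalso
    have h3 := h2.map (eval (pt ξ η))
    rw [eval_X0_sub] at h3
    exact not_isUnit_zero h3
  · rw [isUnit_iff_eq_C_of_isReduced] at h2
    obtain ⟨c, hc, hc'⟩ := h2
    exact ⟨c, hc.ne_zero, by rw [hg, hc', mul_comm]⟩

theorem t_DEG1 : DEG1 := by
  intro K _ _ f ξ η hf h h0
  obtain ⟨c, hc, rfl⟩ := linear f ξ η hf h h0
  unfold PH
  by_cases hξ : ξ = 0
  · rw [hξ, logHeight₁_zero]
    exact Real.log_nonneg (one_le_mulHeight _)
  · have hco0 : coeff 0 (C c * (X 0 - C ξ) : MvPolynomial (Fin 2) K) = -(c * ξ) := by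
      rw [coeff_C_mul, coeff_sub, coeff_C, if_pos rfl, coeff_zero_X, zero_sub, mul_neg]
    have hco1 : coeff (Finsupp.single 0 1) (C c * (X 0 - C ξ) : MvPolynomial (Fin 2) K) = c := by
      rw [coeff_C_mul, coeff_sub, coeff_X, if_pos rfl, coeff_C, if_neg, sub_zero, mul_one]
      intro h1
      have := congrArg (fun m : Fin 2 →₀ ℕ => m 0) h1
      simp at this
    have hm0 : (0 : Fin 2 →₀ ℕ) ∈ (C c * (X 0 - C ξ) : MvPolynomial (Fin 2) K).support := by
      rw [mem_support_iff, hco0]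
      exact neg_ne_zero.2 (mul_ne_zero hc hξ)
    have hm1 : (Finsupp.single 0 1 : Fin 2 →₀ ℕ) ∈
        (C c * (X 0 - C ξ) : MvPolynomial (Fin 2) K).support := by
      rw [mem_support_iff, hco1]
      exact hc
    have h1 := mulHeight_comp_le (![⟨0, hm0⟩, ⟨Finsupp.single 0 1, hm1⟩] : Fin 2 →
      (C c * (X 0 - C ξ) : MvPolynomial (Fin 2) K).support)
      (fun e => coeff e.1 (C c * (X 0 - C ξ) : MvPolynomial (Fin 2) K))
    have h2 : (fun e : (C c * (X 0 - C ξ) : MvPolynomial (Fin 2) K).support =>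
        coeff e.1 (C c * (X 0 - C ξ) : MvPolynomial (Fin 2) K)) ∘
        (![⟨0, hm0⟩, ⟨Finsupp.single 0 1, hm1⟩] : Fin 2 →
          (C c * (X 0 - C ξ) : MvPolynomial (Fin 2) K).support) = c • ![-ξ, 1] := by
      funext i
      fin_cases i
      · show coeff 0 (C c * (X 0 - C ξ) : MvPolynomial (Fin 2) K) = c * -ξ
        rw [hco0, mul_neg]
      · show coeff (Finsupp.single 0 1) (C c * (X 0 - C ξ) : MvPolynomial (Fin 2) K) = c * 1
        rw [hco1, mul_one]
    rw [h2, mulHeight_smul_eq_mulHeight _ hc, ← mulHeight₁_eq_mulHeight, mulHeight₁_neg] at h1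
    exact Real.log_le_log (mulHeight₁_pos ξ) h1

end Pool.Agent.Helper40.SG2
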